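import Pool.Agent.helper13.UN.SpecG

/-! # Project UN (MP_cf4097_nt), block H, row AIF: the algebra of `Pm`, `Ai` -/

set_option autoImplicit false

open NumberField Complex

namespace Pool.Agent.UN

theorem AIF_unit (z : ℂ) (hz : z ≠ 0) : ‖z / (‖z‖ : ℂ)‖ = 1 := by
  rw [norm_div, Complex.norm_real, norm_norm]
  exact div_self (norm_ne_zero_iff.2 hz)

theorem AIF_ph (t u : ℝ) : ‖ph t u‖ = 1 := by
  unfold ph
  have h : -((t * u : ℝ) : ℂ) * I = ((-(t * u) : ℝ) : ℂ) * I := by push_cast; ring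
  rw [h]
  exact Complex.norm_exp_ofReal_mul_I _

theorem AIF_pf_mul (z z' : ℂ) (e n : ℕ) (m : ℤ) :
    (z * z') ^ e * (if 0 ≤ m then (z * z') ^ n else ((starRingEnd ℂ) (z * z')) ^ n) =
      (z ^ e * (if 0 ≤ m then z ^ n else ((starRingEnd ℂ) z) ^ n)) *
        (z' ^ e * (if 0 ≤ m then z' ^ n else ((starRingEnd ℂ) z') ^ n)) := by
  split_ifs
  · rw [mul_pow, mul_pow]; ring
  · rw [map_mul, mul_pow, mul_pow]; ring

theorem AIF_div_mul (z z' : ℂ) : (z * z') / (‖z * z'‖ : ℂ) = z / (‖z‖ : ℂ) * (z' / (‖z'‖ : ℂ)) := by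
  rw [norm_mul, Complex.ofReal_mul]
  exact (div_mul_div_comm _ _ _ _).symm

theorem AIF_ph_mul (t u v : ℝ) : ph t (u + v) = ph t u * ph t v := by
  unfold ph
  rw [← Complex.exp_add]
  congr 1
  push_cast
  ring

/-- one factor of the polynomial against one factor of the character -/
theorem AIF_fac (z : ℂ) (hz : z ≠ 0) (t : ℝ) (e : ℕ) (m : ℤ) :
    z ^ e * (if 0 ≤ m then z ^ m.natAbs else ((starRingEnd ℂ) z) ^ m.natAbs) =
      ((z / (‖z‖ : ℂ)) ^ e * (ph t (Real.log ‖z‖) * (z / (‖z‖ : ℂ)) ^ m)) *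
        ((‖z‖ : ℝ) : ℂ) ^ (((e + m.natAbs : ℕ) : ℂ) + (t : ℂ) * I) := by
  have hr : (0 : ℝ) < ‖z‖ := norm_pos_iff.2 hz
  have hr0 : ((‖z‖ : ℝ) : ℂ) ≠ 0 := by exact_mod_cast hr.ne'
  have h1 : ((‖z‖ : ℝ) : ℂ) ^ (((e + m.natAbs : ℕ) : ℂ) + (t : ℂ) * I) =
      ((‖z‖ : ℝ) : ℂ) ^ e * ((‖z‖ : ℝ) : ℂ) ^ m.natAbs * Complex.exp (((t * Real.log ‖z‖ : ℝ) : ℂ) * I) := by
    rw [Complex.cpow_add _ _ hr0, Complex.cpow_natCast, pow_add]
    congr 1
    rw [Complex.cpow_def_of_ne_zero hr0, ← Complex.ofReal_log hr.le]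
    congr 1
    push_cast
    ring
  have h2 : ph t (Real.log ‖z‖) * Complex.exp (((t * Real.log ‖z‖ : ℝ) : ℂ) * I) = 1 := by
    unfold ph
    rw [← Complex.exp_add]
    have : -((t * Real.log ‖z‖ : ℝ) : ℂ) * I + ((t * Real.log ‖z‖ : ℝ) : ℂ) * I = 0 := by ring
    rw [this, Complex.exp_zero]
  have h3 : (z / (‖z‖ : ℂ)) ^ e * ((‖z‖ : ℝ) : ℂ) ^ e = z ^ e := by
    rw [← mul_pow, div_mul_cancel₀ z hr0]
  have h4 : (z / (‖z‖ : ℂ)) ^ m * ((‖z‖ : ℝ) : ℂ) ^ m.natAbs =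
      (if 0 ≤ m then z ^ m.natAbs else ((starRingEnd ℂ) z) ^ m.natAbs) := by
    split_ifs with hm
    · obtain ⟨n, rfl⟩ := Int.eq_ofNat_of_zero_le hm
      rw [Int.natAbs_natCast, zpow_natCast, ← mul_pow, div_mul_cancel₀ z hr0]
    · obtain ⟨n, hn⟩ := Int.eq_ofNat_of_zero_le (show 0 ≤ -m by omega)
      have hm' : m = -(n : ℤ) := by omega
      rw [hm', Int.natAbs_neg, Int.natAbs_natCast, zpow_neg, zpow_natCast, ← inv_pow, ← mul_pow]
      congr 1
      have h5 : z * (starRingEnd ℂ) z = ((‖z‖ : ℝ) : ℂ) ^ 2 := Complex.mul_conj' z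
      rw [inv_div, div_mul_eq_mul_div, ← sq, ← h5]
      field_simp
  rw [h1]
  calc z ^ e * (if 0 ≤ m then z ^ m.natAbs else ((starRingEnd ℂ) z) ^ m.natAbs)
      = ((z / (‖z‖ : ℂ)) ^ e * ((‖z‖ : ℝ) : ℂ) ^ e) * ((z / (‖z‖ : ℂ)) ^ m * ((‖z‖ : ℝ) : ℂ) ^ m.natAbs) *
          (ph t (Real.log ‖z‖) * Complex.exp (((t * Real.log ‖z‖ : ℝ) : ℂ) * I)) := by
        rw [h2, h3, h4, mul_one]
    _ = _ := by ring

theorem AIF_emb {K : Type} [Field K] [NumberField K] (w : InfinitePlace K) (x : K) : ‖w.embedding x‖ = w x :=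
  InfinitePlace.norm_embedding_eq w x

theorem AIF_emb_ne {K : Type} [Field K] [NumberField K] (w : InfinitePlace K) {x : K} (hx : x ≠ 0) : w.embedding x ≠ 0 :=
  (map_ne_zero w.embedding).2 hx

theorem AIF_six {K : Type} [Field K] [NumberField K] (τ : InfinitePlace K → ℝ) (m : InfinitePlace K → ℤ)
    (e : InfinitePlace K → ℕ) (x : K) (hx : x ≠ 0) : Pm m e x = Ai τ m e x *
      ∏ w : InfinitePlace K, ((w x : ℝ) : ℂ) ^ ((aa m e w : ℂ) + (w.mult : ℂ) * (τ w : ℂ) * I) := by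
  unfold Pm Ai
  rw [← Finset.prod_mul_distrib]
  refine Finset.prod_congr rfl fun w _ => ?_
  have h := AIF_fac (w.embedding x) (AIF_emb_ne w hx) ((w.mult : ℝ) * τ w) (e w) (m w)
  rw [h, AIF_emb]
  unfold aa
  push_cast
  rfl

theorem AIF : AIF_stmt := by
  intro K _ _ τ m e _
  refine ⟨?_, ?_, ?_, ?_, ?_, ?_, ?_⟩
  · intro x y
    unfold Pm
    rw [← Finset.prod_mul_distrib]
    refine Finset.prod_congr rfl fun w _ => ?_
    rw [map_mul]
    exact AIF_pf_mul _ _ _ _ _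
  · intro x y hx hy
    unfold Ai
    rw [← Finset.prod_mul_distrib]
    refine Finset.prod_congr rfl fun w _ => ?_
    have hwx : w x ≠ 0 := (map_ne_zero w).2 hx
    have hwy : w y ≠ 0 := (map_ne_zero w).2 hy
    rw [map_mul w.embedding, AIF_div_mul, mul_pow, mul_zpow, map_mul w, Real.log_mul hwx hwy, AIF_ph_mul]
    ring
  · intro x hx
    constructor
    · unfold Ai
      rw [norm_prod]
      refine Finset.prod_eq_one fun w _ => ?_
      rw [norm_mul, norm_mul, norm_pow, norm_zpow, AIF_unit _ (AIF_emb_ne w hx), AIF_ph, one_pow, one_zpow, mul_one, mul_one]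
    · unfold Pm
      refine Finset.prod_ne_zero_iff.2 fun w _ => ?_
      have h := AIF_emb_ne w hx
      refine mul_ne_zero (pow_ne_zero _ h) ?_
      split_ifs
      · exact pow_ne_zero _ h
      · exact pow_ne_zero _ ((map_ne_zero (starRingEnd ℂ)).2 h)
  · intro x
    unfold Ai Ar
    rw [Finset.prod_mul_distrib]
  · intro x
    unfold Pm aa
    rw [norm_prod]
    refine Finset.prod_congr rfl fun w _ => ?_
    rw [norm_mul, norm_pow, AIF_emb, pow_add]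
    congr 1
    split_ifs
    · rw [norm_pow, AIF_emb]
    · rw [norm_pow, Complex.norm_conj, AIF_emb]
  · intro x hx
    exact AIF_six τ m e x hx
  · intro x y hx hy
    rw [AIF_six τ m e x hx]
    unfold QT Ga
    have h1 : ∀ w : InfinitePlace K, (((w x) ^ 2 * y w : ℝ) : ℂ) ^ (ex τ (aa m e) w) =
        ((w x : ℝ) : ℂ) ^ ((aa m e w : ℂ) + (w.mult : ℂ) * (τ w : ℂ) * I) * ((y w : ℝ) : ℂ) ^ (ex τ (aa m e) w) := by
      intro w
      have hw : 0 < w x := InfinitePlace.pos_iff.2 hx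
      have hw0 : ((w x : ℝ) : ℂ) ≠ 0 := by exact_mod_cast hw.ne'
      rw [Complex.ofReal_mul, Complex.mul_cpow_ofReal_nonneg (sq_nonneg _) (hy w).le]
      congr 1
      rw [sq, Complex.ofReal_mul, Complex.mul_cpow_ofReal_nonneg hw.le hw.le, ← Complex.cpow_add _ _ hw0]
      congr 1
      unfold ex
      ring
    rw [Finset.prod_congr rfl fun w _ => h1 w, Finset.prod_mul_distrib]
    have h2 : ∑ w : InfinitePlace K, (w.mult : ℝ) * y w * (w x) ^ 2 =
        ∑ w : InfinitePlace K, (w.mult : ℝ) * ((w x) ^ 2 * y w) :=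
      Finset.sum_congr rfl fun w _ => by ring
    rw [h2]
    ring

end Pool.Agent.UN
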