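import Pool.Agent.helper82.UN.SpecP

/-! # Project UN (MP_cf4097_nt), block H, row PZS: exponentials are summable over `ℤ^ι` -/

set_option autoImplicit false

open NumberField Complex MeasureTheory nonZeroDivisors

namespace Pool.Agent.UN

theorem PZS_one (c : ℝ) (hc : 0 < c) : Summable fun k : ℤ => Real.exp (-(c * |(k : ℝ)|)) := by
  have h1 : Summable fun n : ℕ => Real.exp (-(c * (n : ℝ))) := by
    have h2 : Summable fun n : ℕ => (Real.exp (-c)) ^ n :=
      summable_geometric_of_lt_one (Real.exp_pos _).le (by rw [Real.exp_lt_one_iff]; linarith)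
    refine h2.congr fun n => ?_
    rw [← Real.exp_nat_mul]
    congr 1
    ring
  refine Summable.of_nat_of_neg ?_ ?_
  · refine h1.congr fun n => ?_
    rw [Int.cast_natCast, abs_of_nonneg (Nat.cast_nonneg n)]
  · refine h1.congr fun n => ?_
    rw [Int.cast_neg, Int.cast_natCast, abs_neg, abs_of_nonneg (Nat.cast_nonneg n)]

theorem PZS : PZS_stmt := by
  classical
  intro ι _ c hc
  have h1 := PZS_one c hc
  have h2 : ∀ k : ι → ℤ, Real.exp (-(c * ∑ i, |(k i : ℝ)|)) = ∏ i, Real.exp (-(c * |(k i : ℝ)|)) := by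
    intro k
    rw [← Real.exp_sum, Finset.sum_neg_distrib, Finset.mul_sum]
  have h3 : (0 : ℝ) ≤ ∑' k : ℤ, Real.exp (-(c * |(k : ℝ)|)) := tsum_nonneg fun k => (Real.exp_pos _).le
  refine summable_of_sum_le (c := ∏ _i : ι, ∑' k : ℤ, Real.exp (-(c * |(k : ℝ)|))) (fun k => (Real.exp_pos _).le) ?_
  intro s
  let t : ι → Finset ℤ := fun i => s.image fun k : ι → ℤ => k i
  calc ∑ k ∈ s, Real.exp (-(c * ∑ i, |(k i : ℝ)|)) = ∑ k ∈ s, ∏ i, Real.exp (-(c * |(k i : ℝ)|)) :=
        Finset.sum_congr rfl fun k _ => h2 k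
    _ ≤ ∑ k ∈ Fintype.piFinset (fun i => t i), ∏ i, Real.exp (-(c * |((k i : ℤ) : ℝ)|)) := by
        refine Finset.sum_le_sum_of_subset_of_nonneg ?_ fun k _ _ => Finset.prod_nonneg fun i _ => (Real.exp_pos _).le
        intro k hk
        rw [Fintype.mem_piFinset]
        intro i
        exact Finset.mem_image_of_mem _ hk
    _ = ∏ i : ι, ∑ k ∈ t i, Real.exp (-(c * |((k : ℤ) : ℝ)|)) :=
        (Finset.prod_univ_sum (fun i => t i) fun _ (k : ℤ) => Real.exp (-(c * |(k : ℝ)|))).symm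
    _ ≤ ∏ _i : ι, ∑' k : ℤ, Real.exp (-(c * |(k : ℝ)|)) := by
        refine Finset.prod_le_prod (fun i _ => Finset.sum_nonneg fun k _ => (Real.exp_pos _).le) fun i _ => ?_
        exact h1.sum_le_tsum _ fun k _ => (Real.exp_pos _).le

end Pool.Agent.UN
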